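import Pool.Agent.Helper61.RN.Lo

/-! Robust bounds for the rates of nested families of random variables hold along most paths. -/

namespace Pool.Agent.Helper61.EC

open Finset Filter Topology Pool.Agent.Helper69.RK Pool.Agent.Helper31.EC Pool.Agent.Helper92.W Pool.Agent.Helper46.WF

noncomputable section

open Sp

/-- nested families -/
def Nst {Ω κ : Type} (X : ℕ → Ω → κ) : Prop := ∀ l m, l ≤ m → ∀ ω ω', X m ω = X m ω' → X l ω = X l ω'

theorem srp_gridX {Ω γ κ : Type} [Fintype Ω] (μ : Ω → ℝ) (h0 : ∀ ω, 0 ≤ μ ω) {X : ℕ → Ω → κ} (hX : Nst X) (F : Ω → γ)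
    {a a' b b' : ℕ} (h1 : a' ≤ a) (h2 : a ≤ b) (h3 : b ≤ b') (ω : Ω) (hω : μ ω ≠ 0) :
    srp μ (X b) (fun ω' => (X a ω', F ω')) ω ≤ srp μ (X b') (fun ω' => (X a' ω', F ω')) ω := by
  unfold srp
  have p1 := e1_pr_pos μ (fun ω' => (X a ω', F ω')) h0 ω hω
  have p2 := e1_pr_pos μ (fun ω' => (X b' ω', (X a' ω', F ω'))) h0 ω hω
  have q1 : pr μ (fun ω' => (X a ω', F ω')) ω ≤ pr μ (fun ω' => (X a' ω', F ω')) ω := by
    apply e1_pr_mono _ _ _ h0
    intro ω' _ h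
    rw [Prod.mk.injEq] at h ⊢
    exact ⟨hX _ _ h1 _ _ h.1, h.2⟩
  have q2 : pr μ (fun ω' => (X b' ω', (X a' ω', F ω'))) ω ≤ pr μ (fun ω' => (X b ω', (X a ω', F ω'))) ω := by
    apply e1_pr_mono _ _ _ h0
    intro ω' _ h
    rw [Prod.mk.injEq, Prod.mk.injEq] at h ⊢
    exact ⟨hX _ _ h3 _ _ h.1, hX _ _ (h2.trans h3) _ _ h.1, h.2.2⟩
  have r1 := Real.logb_le_logb_of_le (by norm_num : (1 : ℝ) < 2) p1 q1
  have r2 := Real.logb_le_logb_of_le (by norm_num : (1 : ℝ) < 2) p2 q2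
  linarith

/-- pigeonhole over finitely many events -/
theorem pos_of_cover {S : Sp} {ι : Type} [Fintype ι] (E : ι → ∀ k, (S.F k).Ω → Prop) (P : ∀ k, (S.F k).Ω → Prop) {η : ℝ}
    (hη : 0 < η) (h1 : ∀ᶠ k in UF, η < Pw (S.F k).μ (P k))
    (h2 : ∀ᶠ k in UF, ∀ ω, (S.F k).μ ω ≠ 0 → P k ω → ∃ p, E p k ω) : ∃ p, 0 < ul (S.pr (E p)) := by
  classical
  have hA : ∀ᶠ k in UF, η < ∑ p, S.pr (E p) k := by
    filter_upwards [h1, h2] with k hk hk2
    refine lt_of_lt_of_le hk ?_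
    rw [Pw_eq]
    have e1 : ∑ p, S.pr (E p) k = ∑ ω, ∑ p, res (S.F k).μ (E p k) ω := by
      rw [Finset.sum_comm]
      rfl
    rw [e1]
    unfold mass
    apply Finset.sum_le_sum
    intro ω _
    have hnn : ∀ p, 0 ≤ res (S.F k).μ (E p k) ω := fun p => (S.F k).res_nonneg (E p k) ω
    by_cases hω : (S.F k).μ ω = 0
    · have : res (S.F k).μ (P k) ω ≤ 0 := by
        unfold res
        split_ifs
        · exact hω.le
        · exact le_rfl
      exact this.trans (Finset.sum_nonneg fun p _ => hnn p)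
    · by_cases hbad : P k ω
      · rw [res_pos _ _ _ hbad]
        obtain ⟨p, hp⟩ := hk2 ω hω hbad
        have g8 := Finset.single_le_sum (f := fun p => res (S.F k).μ (E p k) ω) (fun p _ => hnn p) (Finset.mem_univ p)
        refine le_trans (le_of_eq ?_) g8
        show _ = res (S.F k).μ (E p k) ω
        rw [res_pos _ _ _ hp]
      · rw [res_neg _ _ _ hbad]
        exact Finset.sum_nonneg fun p _ => hnn p
  have hB1 : η ≤ ∑ p, ul (S.pr (E p)) := by
    have t : Tendsto (fun k => ∑ p, S.pr (E p) k) UF (𝓝 (∑ p, ul (S.pr (E p)))) :=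
      tendsto_finsetSum _ fun p _ => ul_tendsto (UB_pr (E p))
    exact ge_of_tendsto t (hA.mono fun k hk => hk.le)
  by_contra hc
  push Not at hc
  have : ∑ p, ul (S.pr (E p)) ≤ 0 := Finset.sum_nonpos fun p _ => hc p
  linarith

/-- entropy on an event of paths of large surprisal -/
theorem h_event_ge {S : Sp} {α β γ : ℕ → Type} {X : ∀ k, (S.F k).Ω → β k} {Y : ∀ k, (S.F k).Ω → γ k}
    {Bc : ∀ k, (S.F k).Ω → α k} (hX : Bdd X) (hY : Bdd Y) (hB : Bdd Bc) (E : ∀ k, (S.F k).Ω → Prop)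
    (hE : 0 < ul (S.pr E)) (t : ℝ)
    (ht : ∀ k ω, (S.F k).μ ω ≠ 0 → E k ω → t * (S.F k).n ≤
      srp (S.F k).μ (X k) (fun ω' => (Y k ω', (Quotient.mk (S.F k).Z ω', Bc k ω'))) ω) :
    t ≤ h (restL E hE (io X)) (restL E hE (io Y ⊔ io Bc)) := by
  have e1 : restL E hE (io Y ⊔ io Bc) = io (S := S.rest E) (fun k ω => (Y k ω, Bc k ω)) := by
    rw [← io_pair hY hB]
    exact restL_io E hE (hY.pair hB)
  have e2 : restL E hE (io X) = io (S := S.rest E) X := restL_io E hE hX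
  have b1 : Bdd (S := S.rest E) X := rest_VB E hX
  have b2 : Bdd (S := S.rest E) (fun k ω => (Y k ω, Bc k ω)) := rest_VB E (hY.pair hB)
  rw [e1, e2, h_io b1 b2]
  set R : ℕ → ℝ := (S.rest E).rt (fun k => Setoid.ker (X k)) (fun k => Setoid.ker (fun ω => (Y k ω, Bc k ω))) with hR
  have hUR : UB R := UB_rt (b1.toInf) _
  have h3 : ∀ k, t * S.pr E k - 1 / (S.F k).n ≤ S.pr E k * R k := by
    intro k
    have hn := (S.F k).pos
    have c1 := srp_event (S.F k).μ (S.F k).nn (X k) (fun ω' => (Y k ω', (Quotient.mk (S.F k).Z ω', Bc k ω')))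
      (E k) (t * (S.F k).n) (fun ω h1 h2 => ht k ω h1 h2)
    rw [(S.F k).ms, (S.F k).CH_res] at c1
    have c2 : CH ((S.F k).rest (E k)).μ (X k) (fun ω' => (Y k ω', (Quotient.mk (S.F k).Z ω', Bc k ω'))) =
        R k * (S.F k).n := by
      have c3 : R k = ((S.F k).rest (E k)).e (Setoid.ker (X k))
          (Setoid.ker (fun ω => (Y k ω, Bc k ω)) ⊓ (S.F k).Z) / (S.F k).n := rfl
      rw [c3, div_mul_cancel₀ _ hn.ne']
      symm
      apply ((S.F k).rest (E k)).e_congr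
      · intro ω ω' _ _
        exact Iff.rfl
      · intro ω ω' _ _
        rw [Prod.mk.injEq, Prod.mk.injEq]
        constructor
        · rintro ⟨u1, u2⟩
          have u3 : (Y k ω', Bc k ω') = (Y k ω, Bc k ω) := u1
          rw [Prod.mk.injEq] at u3
          exact ⟨u3.1, Quotient.sound u2, u3.2⟩
        · rintro ⟨u1, u2, u3⟩
          refine ⟨?_, Quotient.exact u2⟩
          show (Y k ω', Bc k ω') = (Y k ω, Bc k ω)
          rw [u1, u3]
    replace c1 := c1.trans (le_of_eq (congrArg (fun t => (S.F k).pb (E k) * t) c2))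
    beta_reduce at c1
    have c4 : (S.F k).pb (E k) = S.pr E k := rfl
    have c5 : mass (res (S.F k).μ (E k)) = S.pr E k := rfl
    rw [c4, c5] at c1
    have c6 := div_le_div_of_nonneg_right c1 hn.le
    have c7 : (t * (S.F k).n * S.pr E k - 1) / (S.F k).n = t * S.pr E k - 1 / (S.F k).n := by
      field_simp
    have c8 : S.pr E k * (R k * (S.F k).n) / (S.F k).n = S.pr E k * R k := by
      field_simp
    rw [c7, c8] at c6
    exact c6
  have t1 : Tendsto (fun k => t * S.pr E k - 1 / (S.F k).n) UF (𝓝 (t * ul (S.pr E) - 0)) :=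
    ((ul_tendsto (UB_pr E)).const_mul _).sub (S.div_n_tendsto 1)
  have t2 : Tendsto (fun k => S.pr E k * R k) UF (𝓝 (ul (S.pr E) * ul R)) :=
    (ul_tendsto (UB_pr E)).mul (ul_tendsto hUR)
  have h4 := le_of_tendsto_of_tendsto t1 t2 (Eventually.of_forall h3)
  rw [sub_zero, mul_comm] at h4
  exact le_of_mul_le_mul_left h4 hE

/-- entropy on an event of paths of small surprisal -/
theorem h_event_le {S : Sp} {α β γ : ℕ → Type} {X : ∀ k, (S.F k).Ω → β k} {Y : ∀ k, (S.F k).Ω → γ k}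
    {Bc : ∀ k, (S.F k).Ω → α k} (hX : Bdd X) (hY : Bdd Y) (hB : Bdd Bc) (E : ∀ k, (S.F k).Ω → Prop)
    (hE : 0 < ul (S.pr E)) (t : ℝ)
    (ht : ∀ k ω, (S.F k).μ ω ≠ 0 → E k ω →
      srp (S.F k).μ (X k) (fun ω' => (Y k ω', (Quotient.mk (S.F k).Z ω', Bc k ω'))) ω ≤ t * (S.F k).n) :
    h (restL E hE (io X)) (restL E hE (io Y ⊔ io Bc)) ≤ t := by
  have e1 : restL E hE (io Y ⊔ io Bc) = io (S := S.rest E) (fun k ω => (Y k ω, Bc k ω)) := by
    rw [← io_pair hY hB]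
    exact restL_io E hE (hY.pair hB)
  have e2 : restL E hE (io X) = io (S := S.rest E) X := restL_io E hE hX
  have b1 : Bdd (S := S.rest E) X := rest_VB E hX
  have b2 : Bdd (S := S.rest E) (fun k ω => (Y k ω, Bc k ω)) := rest_VB E (hY.pair hB)
  rw [e1, e2, h_io b1 b2]
  set R : ℕ → ℝ := (S.rest E).rt (fun k => Setoid.ker (X k)) (fun k => Setoid.ker (fun ω => (Y k ω, Bc k ω))) with hR
  have hUR : UB R := UB_rt (b1.toInf) _
  have h3 : ∀ k, S.pr E k * R k ≤ t * S.pr E k := by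
    intro k
    have hn := (S.F k).pos
    have c1 := srp_event_le (S.F k).μ (S.F k).nn (X k) (fun ω' => (Y k ω', (Quotient.mk (S.F k).Z ω', Bc k ω')))
      (E k) (t * (S.F k).n) (fun ω h1 h2 => ht k ω h1 h2)
    rw [(S.F k).CH_res] at c1
    have c2 : CH ((S.F k).rest (E k)).μ (X k) (fun ω' => (Y k ω', (Quotient.mk (S.F k).Z ω', Bc k ω'))) =
        R k * (S.F k).n := by
      have c3 : R k = ((S.F k).rest (E k)).e (Setoid.ker (X k))
          (Setoid.ker (fun ω => (Y k ω, Bc k ω)) ⊓ (S.F k).Z) / (S.F k).n := rfl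
      rw [c3, div_mul_cancel₀ _ hn.ne']
      symm
      apply ((S.F k).rest (E k)).e_congr
      · intro ω ω' _ _
        exact Iff.rfl
      · intro ω ω' _ _
        rw [Prod.mk.injEq, Prod.mk.injEq]
        constructor
        · rintro ⟨u1, u2⟩
          have u3 : (Y k ω', Bc k ω') = (Y k ω, Bc k ω) := u1
          rw [Prod.mk.injEq] at u3
          exact ⟨u3.1, Quotient.sound u2, u3.2⟩
        · rintro ⟨u1, u2, u3⟩
          refine ⟨?_, Quotient.exact u2⟩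
          show (Y k ω', Bc k ω') = (Y k ω, Bc k ω)
          rw [u1, u3]
    replace c1 := (le_of_eq (congrArg (fun t => (S.F k).pb (E k) * t) c2).symm).trans c1
    beta_reduce at c1
    have c4 : (S.F k).pb (E k) = S.pr E k := rfl
    have c5 : mass (res (S.F k).μ (E k)) = S.pr E k := rfl
    rw [c4, c5] at c1
    have c6 : (S.pr E k * R k) * (S.F k).n ≤ (t * S.pr E k) * (S.F k).n := by linarith
    exact le_of_mul_le_mul_right c6 hn
  have t1 : Tendsto (fun k => t * S.pr E k) UF (𝓝 (t * ul (S.pr E))) := (ul_tendsto (UB_pr E)).const_mul _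
  have t2 : Tendsto (fun k => S.pr E k * R k) UF (𝓝 (ul (S.pr E) * ul R)) :=
    (ul_tendsto (UB_pr E)).mul (ul_tendsto hUR)
  have h4 := le_of_tendsto_of_tendsto t2 t1 (Eventually.of_forall h3)
  rw [mul_comm t] at h4
  exact le_of_mul_le_mul_left h4 hE

/-- robust upper bounds for the rates of the blocks of a nested family hold along most paths -/
theorem un_gen (S : Sp) {α κ : ℕ → Type} (Bc : ∀ k, (S.F k).Ω → α k) (hB : Bdd Bc) (X : ∀ k, ℕ → (S.F k).Ω → κ k)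
    (hX : ∀ k, Nst (X k)) (hb : ∀ r, Bdd (fun k => X k (lev S r k))) (a0 C η : ℝ) (h00 : 0 ≤ a0) (h01 : a0 < 1)
    (hC : 0 ≤ C) (hη : 0 < η)
    (hun : ∀ (E : ∀ k, (S.F k).Ω → Prop) (hE : 0 < ul (S.pr E)) (a b : ℝ), a0 ≤ a → a ≤ b → b ≤ 1 →
      h (restL E hE (io (fun k => X k (lev S b k))))
        (restL E hE (io (fun k => X k (lev S a k)) ⊔ io Bc)) ≤ C * (b - a)) :
    ∀ᶠ k in UF, Pw (S.F k).μ (fun ω => ∃ a b : ℕ, a0 * (lev S 1 k) ≤ a ∧ a ≤ b ∧ b ≤ lev S 1 k ∧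
      C * ((b : ℝ) - a) + η * (lev S 1 k) < srp (S.F k).μ (X k b)
        (fun ω' => (X k a ω', (Quotient.mk (S.F k).Z ω', Bc k ω'))) ω) ≤ η := by
  classical
  by_contra hcon
  have h1 := UF_not hcon
  obtain ⟨M, hM8⟩ := exists_nat_ge (8 * (C + 1) / η)
  have hM0 : (0 : ℝ) < M := lt_of_lt_of_le (by positivity) hM8
  have hM1 : 1 ≤ M := by exact_mod_cast hM0
  have hM2 : C * (2 / (M : ℝ)) ≤ η / 4 := by
    rw [div_le_iff₀ hη] at hM8
    rw [mul_div_assoc', div_le_iff₀ hM0]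
    nlinarith
  set ρ : ℕ → ℝ := fun i => a0 + (1 - a0) * (i / M) with hρ
  set E : Fin (M + 1) × Fin (M + 1) → ∀ k, (S.F k).Ω → Prop := fun p k ω =>
    (p.1 : ℕ) ≤ p.2 ∧ (C * (ρ p.2 - ρ p.1) + η / 4) * (S.F k).n ≤
      srp (S.F k).μ (X k (lev S (ρ p.2) k))
        (fun ω' => (X k (lev S (ρ p.1) k) ω', (Quotient.mk (S.F k).Z ω', Bc k ω'))) ω with hE
  obtain ⟨p, hp⟩ := pos_of_cover E _ hη (h1.mono fun k hk => not_le.mp hk) (by
    filter_upwards [S.lim.eventually_ge_atTop 2] with k hn2 ω hω hbad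
    have hn := (S.F k).pos
    have hNle : (lev S 1 k : ℝ) ≤ (S.F k).n := by
      have := lev_le S zero_le_one k
      rwa [one_mul] at this
    have hNlt : (S.F k).n < lev S 1 k + 1 := by
      have := lt_lev S 1 k
      rwa [one_mul] at this
    obtain ⟨a, b, ha, hab, hb', hs⟩ := hbad
    obtain ⟨i, j, hij, hj, hi1, hj1, hd⟩ := grid hn h00 h01 hM1 hNle hNlt ha hab hb'
    refine ⟨(⟨i, by omega⟩, ⟨j, by omega⟩), hij, ?_⟩
    have g1 := srp_gridX (S.F k).μ (S.F k).nn (hX k) (fun ω' => (Quotient.mk (S.F k).Z ω', Bc k ω')) hi1 hab hj1 ω hω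
    refine le_trans ?_ g1
    refine le_trans ?_ hs.le
    have g2 : (ρ j - ρ i) * (S.F k).n ≤ (b : ℝ) - a + 2 / M * (S.F k).n := by
      have g3 := mul_le_mul_of_nonneg_right hd hn.le
      rw [add_mul, div_mul_cancel₀ _ hn.ne'] at g3
      exact g3
    have g4 : C * (2 / (M : ℝ)) * (S.F k).n ≤ η / 4 * (S.F k).n := mul_le_mul_of_nonneg_right hM2 hn.le
    have g5 : C * ((ρ j - ρ i) * (S.F k).n) ≤ C * ((b : ℝ) - a + 2 / M * (S.F k).n) :=
      mul_le_mul_of_nonneg_left g2 hC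
    have g7 : η * ((S.F k).n / 2) ≤ η * (lev S 1 k) := mul_le_mul_of_nonneg_left (by linarith) hη.le
    show (C * (ρ j - ρ i) + η / 4) * (S.F k).n ≤ _
    nlinarith)
  have hij : (p.1 : ℕ) ≤ p.2 := by
    by_contra hc
    have e1 : S.pr (E p) = fun _ => 0 := by
      funext k
      unfold Sp.pr FSp.pb mass
      apply Finset.sum_eq_zero
      intro ω _
      exact res_neg _ _ _ (fun hh => hc hh.1)
    rw [e1, ul_const] at hp
    exact lt_irrefl 0 hp
  have hpM : ((p.2 : ℕ) : ℝ) ≤ M := by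
    have := p.2.2
    have h2 : (p.2 : ℕ) ≤ M := by omega
    exact_mod_cast h2
  have hd : 0 < 1 - a0 := by linarith
  have hρ1 : a0 ≤ ρ p.1 := by
    have : 0 ≤ (1 - a0) * (((p.1 : ℕ) : ℝ) / M) := by positivity
    show a0 ≤ a0 + (1 - a0) * (((p.1 : ℕ) : ℝ) / M)
    linarith
  have hρ2 : ρ p.1 ≤ ρ p.2 := by
    have e1 : ((p.1 : ℕ) : ℝ) ≤ (p.2 : ℕ) := by exact_mod_cast hij
    have e2 := mul_le_mul_of_nonneg_left (div_le_div_of_nonneg_right e1 hM0.le) hd.le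
    show a0 + (1 - a0) * (((p.1 : ℕ) : ℝ) / M) ≤ a0 + (1 - a0) * (((p.2 : ℕ) : ℝ) / M)
    linarith
  have hρ3 : ρ p.2 ≤ 1 := by
    have e1 := (div_le_one hM0).mpr hpM
    have e2 := mul_le_mul_of_nonneg_left e1 hd.le
    show a0 + (1 - a0) * (((p.2 : ℕ) : ℝ) / M) ≤ 1
    linarith
  have h2 := hun (E p) hp (ρ p.1) (ρ p.2) hρ1 hρ2 hρ3
  have h3 := h_event_ge (hb (ρ p.2)) (hb (ρ p.1)) hB (E p) hp (C * (ρ p.2 - ρ p.1) + η / 4)
    (fun k ω _ hω => hω.2)
  linarith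

end

end Pool.Agent.Helper61.EC
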