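import Pool.Agent.Helper61.VW.Gen

/-! Robust lower bounds for the rates of blocks hold along most paths. -/

namespace Pool.Agent.Helper61.EC

open Finset Filter Topology Pool.Agent.Helper69.RK Pool.Agent.Helper31.EC Pool.Agent.Helper92.W Pool.Agent.Helper46.WF

noncomputable section

open Sp

open Classical in
/-- large surprisals of variables with few values are rare -/
theorem srp_card {Ω α γ : Type} [Fintype Ω] (μ : Ω → ℝ) (h0 : ∀ ω, 0 ≤ μ ω) (f : Ω → α) (g : Ω → γ) {K : ℝ}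
    (hK : 0 < K)
    (hc : ∀ ω, μ ω ≠ 0 → ((((univ : Finset Ω).filter (fun ω' => g ω' = g ω)).image f).card : ℝ) ≤ K) (t : ℝ) :
    Pw μ (fun ω => Real.logb 2 K + t < srp μ f g ω) ≤ 2 ^ (-t) * mass μ := by
  set P : Ω → ℝ := pr μ (fun ω' => (f ω', g ω')) with hP
  set G : Ω → ℝ := pr μ g with hG
  have hP0 : ∀ ω, 0 ≤ P ω := fun ω => e1_pr_nonneg μ _ h0 ω
  have hG0 : ∀ ω, 0 ≤ G ω := fun ω => e1_pr_nonneg μ _ h0 ω
  -- the sum
  have h1 : ∑ ω, μ ω * (G ω / P ω) ≤ K * mass μ := by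
    have e1 : ∀ ω, μ ω * (G ω / P ω) = ∑ ω', if g ω' = g ω then μ ω' * (μ ω / P ω) else 0 := by
      intro ω
      rw [hG, e1_pr_eq μ g ω, mul_div_assoc', Finset.mul_sum, Finset.sum_div]
      apply Finset.sum_congr rfl
      intro ω' _
      by_cases h : g ω' = g ω
      · rw [if_pos h, if_pos h]; ring
      · rw [if_neg h, if_neg h]; simp
    rw [Finset.sum_congr rfl fun ω _ => e1 ω, Finset.sum_comm]
    unfold mass
    rw [Finset.mul_sum]
    apply Finset.sum_le_sum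
    intro ω' _
    by_cases h3 : μ ω' = 0
    · rw [h3]
      simp
    rw [← Finset.sum_filter, ← Finset.mul_sum, mul_comm]
    apply mul_le_mul_of_nonneg_right _ (h0 ω')
    set s := univ.filter (fun ω => g ω' = g ω) with hs
    have hs2 : s = univ.filter (fun ω => g ω = g ω') := by
      ext ω
      simp [hs, eq_comm]
    rw [← Finset.sum_fiberwise_of_maps_to (s := s) (t := s.image f) (g := f) (fun ω hω => Finset.mem_image_of_mem f hω)]
    refine (Finset.sum_le_sum (g := fun _ => (1 : ℝ)) fun c _ => ?_).trans ?_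
    · apply e1_sum_div_le μ _ h0
      intro ω hω ω2 hω2
      rw [Finset.mem_filter, hs, Finset.mem_filter] at hω hω2
      exact Prod.ext (hω.2.trans hω2.2.symm) (hω.1.2.symm.trans hω2.1.2)
    · rw [Finset.sum_const, nsmul_eq_mul, mul_one, hs2]
      exact hc ω' h3
  have h2 : ∀ ω, (if Real.logb 2 K + t < srp μ f g ω then μ ω else 0) ≤ 2 ^ (-t) / K * (μ ω * (G ω / P ω)) := by
    intro ω
    by_cases h3 : μ ω = 0
    · rw [h3]; simp
    have hg : 0 < G ω := e1_pr_pos μ _ h0 ω h3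
    have hp : 0 < P ω := e1_pr_pos μ _ h0 ω h3
    have hm : 0 < μ ω := lt_of_le_of_ne (h0 ω) (Ne.symm h3)
    split_ifs with h4
    · have h5 : Real.logb 2 (K * 2 ^ t) < Real.logb 2 (G ω / P ω) := by
        rw [Real.logb_mul hK.ne' (by positivity), Real.logb_rpow (by norm_num) (by norm_num),
          Real.logb_div hg.ne' hp.ne']
        exact h4
      have h6 : K * 2 ^ t < G ω / P ω := (Real.logb_lt_logb_iff (by norm_num) (by positivity) (by positivity)).mp h5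
      have h7 : (2 : ℝ) ^ (-t) / K * (K * 2 ^ t) = 1 := by
        rw [Real.rpow_neg (by norm_num)]
        field_simp
      have h8 : 1 ≤ (2 : ℝ) ^ (-t) / K * (G ω / P ω) := by
        rw [← h7]
        exact mul_le_mul_of_nonneg_left h6.le (by positivity)
      calc μ ω = μ ω * 1 := (mul_one _).symm
        _ ≤ μ ω * ((2 : ℝ) ^ (-t) / K * (G ω / P ω)) := mul_le_mul_of_nonneg_left h8 hm.le
        _ = _ := by ring
    · positivity
  have h3 : Pw μ (fun ω => Real.logb 2 K + t < srp μ f g ω) ≤ ∑ ω, 2 ^ (-t) / K * (μ ω * (G ω / P ω)) := by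
    rw [Pw_eq]
    unfold mass
    apply Finset.sum_le_sum
    intro ω _
    refine le_trans (le_of_eq ?_) (h2 ω)
    by_cases h4 : Real.logb 2 K + t < srp μ f g ω
    · rw [if_pos h4, res_pos _ (fun ω => Real.logb 2 K + t < srp μ f g ω) _ h4]
    · rw [if_neg h4, res_neg _ (fun ω => Real.logb 2 K + t < srp μ f g ω) _ h4]
  refine h3.trans ?_
  rw [← Finset.mul_sum]
  calc (2 : ℝ) ^ (-t) / K * ∑ ω, μ ω * (G ω / P ω) ≤ 2 ^ (-t) / K * (K * mass μ) :=
        mul_le_mul_of_nonneg_left h1 (by positivity)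
    _ = 2 ^ (-t) * mass μ := by field_simp

/-- changing the condition and the target of a surprisal -/
theorem srp_change {Ω γ κ κ' : Type} [Fintype Ω] (μ : Ω → ℝ) (h0 : ∀ ω, 0 ≤ μ ω) {X : ℕ → Ω → κ} (hX : Nst X)
    {Y : ℕ → Ω → κ'} (hY : Nst Y) (F : Ω → γ) {a a' b b' : ℕ} (h1 : a ≤ a') (h3 : b' ≤ b) (ω : Ω) (hω : μ ω ≠ 0) :
    srp μ (Y b') (fun ω' => (X a' ω', F ω')) ω ≤ srp μ (Y b) (fun ω' => (X a ω', F ω')) ω +
      srp μ (X a') (fun ω' => (Y b' ω', (X a ω', F ω'))) ω := by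
  unfold srp
  have p1 := e1_pr_pos μ (fun ω' => (X a' ω', F ω')) h0 ω hω
  have p2 := e1_pr_pos μ (fun ω' => (Y b ω', (X a ω', F ω'))) h0 ω hω
  have p3 := e1_pr_pos μ (fun ω' => (X a' ω', (Y b' ω', (X a ω', F ω')))) h0 ω hω
  have q1 : pr μ (fun ω' => (X a' ω', F ω')) ω ≤ pr μ (fun ω' => (X a ω', F ω')) ω := by
    apply e1_pr_mono _ _ _ h0
    intro ω' _ h
    rw [Prod.mk.injEq] at h ⊢
    exact ⟨hX _ _ h1 _ _ h.1, h.2⟩
  have q2 : pr μ (fun ω' => (Y b ω', (X a ω', F ω'))) ω ≤ pr μ (fun ω' => (Y b' ω', (X a ω', F ω'))) ω := by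
    apply e1_pr_mono _ _ _ h0
    intro ω' _ h
    rw [Prod.mk.injEq] at h ⊢
    exact ⟨hY _ _ h3 _ _ h.1, h.2⟩
  have q3 : pr μ (fun ω' => (X a' ω', (Y b' ω', (X a ω', F ω')))) ω ≤ pr μ (fun ω' => (Y b' ω', (X a' ω', F ω'))) ω := by
    apply e1_pr_mono _ _ _ h0
    intro ω' _ h
    simp only [Prod.mk.injEq] at h ⊢
    exact ⟨h.2.1, h.1, h.2.2.2⟩
  have r1 := Real.logb_le_logb_of_le (by norm_num : (1 : ℝ) < 2) p1 q1
  have r2 := Real.logb_le_logb_of_le (by norm_num : (1 : ℝ) < 2) p2 q2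
  have r3 := Real.logb_le_logb_of_le (by norm_num : (1 : ℝ) < 2) p3 q3
  linarith

/-- grid inside an interval of levels -/
theorem grid_in {n a0 : ℝ} (hn : 0 < n) (h00 : 0 ≤ a0) (h01 : a0 < 1) {M : ℕ} (hM : 1 ≤ M) {N a b : ℕ} (hN : (N : ℝ) ≤ n)
    (hN' : n < N + 1) (h1 : a0 * N ≤ a) (h2 : a ≤ b) (h3 : b ≤ N) :
    (b : ℝ) - a ≤ 3 / M * n + 2 ∨ ∃ i j : ℕ, i ≤ j ∧ j ≤ M ∧ a ≤ ⌊(a0 + (1 - a0) * (i / M)) * n⌋₊ ∧
      ⌊(a0 + (1 - a0) * (j / M)) * n⌋₊ ≤ b ∧ (⌊(a0 + (1 - a0) * (i / M)) * n⌋₊ : ℝ) ≤ a + 2 / M * n + 2 ∧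
      ((b : ℝ) - a) / n - 3 / M - 2 / n ≤ ((a0 + (1 - a0) * (j / M)) - (a0 + (1 - a0) * (i / M))) := by
  have hM0 : (0 : ℝ) < M := by exact_mod_cast hM
  have hd : 0 < 1 - a0 := by linarith
  have hab : (a : ℝ) ≤ b := by exact_mod_cast h2
  have hbN : (b : ℝ) ≤ N := by exact_mod_cast h3
  have hbn : (b : ℝ) ≤ n := hbN.trans hN
  have hMn : 0 < 3 / (M : ℝ) * n := by positivity
  rcases le_or_gt ((b : ℝ) - a) (3 / M * n + 2) with hs | hs
  · exact Or.inl hs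
  right
  have ha1 : (a : ℝ) + 1 ≤ n := by linarith
  have hba0 : a0 * n ≤ b := by nlinarith
  set x : ℝ := (((a : ℝ) + 1) / n - a0) / (1 - a0) * M with hx
  set y : ℝ := ((b : ℝ) / n - a0) / (1 - a0) * M with hy
  have key : ∀ t : ℝ, a0 + (1 - a0) * (((t - a0) / (1 - a0) * M) / M) = t := by
    intro t
    field_simp
    ring
  have hmono : ∀ s t : ℝ, s ≤ t → a0 + (1 - a0) * (s / M) ≤ a0 + (1 - a0) * (t / M) := by
    intro s t hst
    have := div_le_div_of_nonneg_right hst hM0.le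
    have := mul_le_mul_of_nonneg_left this hd.le
    linarith
  have hx0 : 0 ≤ x := by
    apply mul_nonneg _ hM0.le
    apply div_nonneg _ hd.le
    rw [sub_nonneg, le_div_iff₀ hn]
    nlinarith
  have hy0 : 0 ≤ y := by
    apply mul_nonneg _ hM0.le
    apply div_nonneg _ hd.le
    rw [sub_nonneg, le_div_iff₀ hn]
    exact hba0
  have hy1 : y ≤ M := by
    have e1 : ((b : ℝ) / n - a0) / (1 - a0) ≤ 1 := by
      rw [div_le_one hd]
      have := (div_le_one hn).mpr hbn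
      linarith
    calc y ≤ 1 * M := mul_le_mul_of_nonneg_right e1 hM0.le
      _ = M := one_mul _
  have hyx : 3 ≤ y - x := by
    have e1 : y - x = ((b : ℝ) - a - 1) / n / (1 - a0) * M := by
      rw [hx, hy]
      field_simp
      ring
    have e2 : 3 / (M : ℝ) ≤ ((b : ℝ) - a - 1) / n := by
      rw [le_div_iff₀ hn]
      linarith
    have e3 : ((b : ℝ) - a - 1) / n ≤ ((b : ℝ) - a - 1) / n / (1 - a0) := by
      rw [le_div_iff₀ hd]
      have : 0 ≤ ((b : ℝ) - a - 1) / n := le_trans (by positivity) e2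
      nlinarith
    rw [e1]
    calc (3 : ℝ) = 3 / M * M := by field_simp
      _ ≤ _ := mul_le_mul_of_nonneg_right (e2.trans e3) hM0.le
  have c1 := Nat.ceil_lt_add_one hx0
  have c2 := Nat.lt_floor_add_one y
  have c3 := Nat.floor_le hy0
  have c4 := Nat.le_ceil x
  have hρi : a0 + (1 - a0) * ((⌈x⌉₊ : ℝ) / M) ≤ ((a : ℝ) + 1) / n + 1 / M := by
    have e2 := hmono _ _ c1.le
    have e3 : a0 + (1 - a0) * ((x + 1) / M) = a0 + (1 - a0) * (x / M) + (1 - a0) * (1 / M) := by ring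
    have e4 : a0 + (1 - a0) * (x / M) = ((a : ℝ) + 1) / n := key _
    have e5 : (1 - a0) * (1 / (M : ℝ)) ≤ 1 * (1 / M) := mul_le_mul_of_nonneg_right (by linarith) (by positivity)
    linarith
  have hρj : (b : ℝ) / n - 1 / M ≤ a0 + (1 - a0) * ((⌊y⌋₊ : ℝ) / M) := by
    have e2 := hmono _ _ c2.le
    have e3 : a0 + (1 - a0) * (((⌊y⌋₊ : ℝ) + 1) / M) = a0 + (1 - a0) * ((⌊y⌋₊ : ℝ) / M) + (1 - a0) * (1 / M) := by ring
    have e4 : a0 + (1 - a0) * (y / M) = (b : ℝ) / n := key _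
    have e5 : (1 - a0) * (1 / (M : ℝ)) ≤ 1 * (1 / M) := mul_le_mul_of_nonneg_right (by linarith) (by positivity)
    linarith
  refine ⟨⌈x⌉₊, ⌊y⌋₊, ?_, ?_, ?_, ?_, ?_, ?_⟩
  · have : ((⌈x⌉₊ : ℕ) : ℝ) < ((⌊y⌋₊ : ℕ) : ℝ) + 1 := by linarith
    have h5 : ⌈x⌉₊ < ⌊y⌋₊ + 1 := by exact_mod_cast this
    omega
  · have : ((⌊y⌋₊ : ℕ) : ℝ) ≤ M := c3.trans hy1
    exact_mod_cast this
  · apply Nat.le_floor
    have e1 := hmono _ _ c4
    rw [hx, key] at e1
    have e2 := mul_le_mul_of_nonneg_right e1 hn.le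
    rw [div_mul_cancel₀ _ hn.ne'] at e2
    linarith
  · apply Nat.floor_le_of_le
    have e1 := hmono _ _ c3
    rw [hy, key] at e1
    have e2 := mul_le_mul_of_nonneg_right e1 hn.le
    rw [div_mul_cancel₀ _ hn.ne'] at e2
    exact e2
  · have e0 : 0 ≤ (a0 + (1 - a0) * ((⌈x⌉₊ : ℝ) / M)) * n := by positivity
    refine (Nat.floor_le e0).trans ?_
    have e2 := mul_le_mul_of_nonneg_right hρi hn.le
    have e3 : (((a : ℝ) + 1) / n + 1 / M) * n = (a : ℝ) + 1 + 1 / M * n := by field_simp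
    have e4 : 1 / (M : ℝ) * n ≤ 2 / M * n := by
      apply mul_le_mul_of_nonneg_right _ hn.le
      apply div_le_div_of_nonneg_right _ hM0.le
      norm_num
    linarith
  · have e1 : ((b : ℝ) - a) / n = b / n - a / n := sub_div _ _ _
    have e2 : ((a : ℝ) + 1) / n = a / n + 1 / n := add_div _ _ _
    have e3 : (2 : ℝ) / n = 1 / n + 1 / n := by ring
    have e4 : (3 : ℝ) / M = 1 / M + 1 / M + 1 / M := by ring
    have e5 : 0 ≤ 1 / n := by positivity
    have e6 : 0 ≤ 1 / (M : ℝ) := by positivity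
    linarith

theorem poly_exp {c δ : ℝ} (hc : 0 < c) (hδ : 0 < δ) :
    ∃ n1 : ℝ, ∀ n : ℝ, n1 ≤ n → (n + 1) ^ 3 * 2 ^ (-(c * n)) ≤ δ := by
  have h1 := (isLittleO_pow_exp_pos_mul_atTop 3 (b := c * Real.log 2)
    (mul_pos hc (Real.log_pos (by norm_num)))).tendsto_div_nhds_zero
  have h2 := h1.eventually (gt_mem_nhds (show (0 : ℝ) < δ / 8 by positivity))
  rw [eventually_atTop] at h2
  obtain ⟨n1, hn1⟩ := h2
  refine ⟨max n1 1, fun n hn => ?_⟩
  have h3 := hn1 n ((le_max_left _ _).trans hn)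
  have h4 : 1 ≤ n := (le_max_right _ _).trans hn
  have e1 : (2 : ℝ) ^ (-(c * n)) = (Real.exp (c * Real.log 2 * n))⁻¹ := by
    rw [Real.rpow_def_of_pos (by norm_num), ← Real.exp_neg]
    congr 1; ring
  rw [e1]
  have e2 : (n + 1) ^ 3 ≤ 8 * n ^ 3 := by
    have : n + 1 ≤ 2 * n := by linarith
    calc (n + 1) ^ 3 ≤ (2 * n) ^ 3 := pow_le_pow_left₀ (by linarith) this 3
      _ = 8 * n ^ 3 := by ring
  have e3 : (0 : ℝ) < (Real.exp (c * Real.log 2 * n))⁻¹ := by positivity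
  calc (n + 1) ^ 3 * (Real.exp (c * Real.log 2 * n))⁻¹ ≤ 8 * n ^ 3 * (Real.exp (c * Real.log 2 * n))⁻¹ :=
        mul_le_mul_of_nonneg_right e2 e3.le
    _ = 8 * (n ^ 3 / Real.exp (c * Real.log 2 * n)) := by rw [div_eq_mul_inv]; ring
    _ ≤ 8 * (δ / 8) := mul_le_mul_of_nonneg_left h3.le (by norm_num)
    _ = δ := by ring

theorem Pw_ex {Ω ι : Type} [Fintype Ω] [Fintype ι] (w : Ω → ℝ) (hw : ∀ ω, 0 ≤ w ω) (B : ι → Ω → Prop) :
    Pw w (fun ω => ∃ i, B i ω) ≤ ∑ i, Pw w (B i) := by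
  classical
  unfold Pw
  rw [Finset.sum_comm]
  refine Finset.sum_le_sum fun ω _ => ?_
  have hnn : ∀ i, 0 ≤ if B i ω then w ω else 0 := by
    intro i
    split_ifs
    · exact hw ω
    · exact le_rfl
  by_cases h : ∃ i, B i ω
  · rw [if_pos h]
    obtain ⟨i, hi⟩ := h
    have h4 := Finset.single_le_sum (f := fun i => if B i ω then w ω else 0) (fun i _ => hnn i) (Finset.mem_univ i)
    beta_reduce at h4
    rwa [if_pos hi] at h4
  · rw [if_neg h]
    exact Finset.sum_nonneg fun i _ => hnn i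

open Classical in
/-- robust lower bounds for the rates of blocks hold along most paths -/
theorem lo_gen (S : Sp) {α κ κ' : ℕ → Type} (Bc : ∀ k, (S.F k).Ω → α k) (hB : Bdd Bc)
    (X : ∀ k, ℕ → (S.F k).Ω → κ k) (hX : ∀ k, Nst (X k)) (hb : ∀ r, Bdd (fun k => X k (lev S r k)))
    (Y : ∀ k, ℕ → (S.F k).Ω → κ' k) (hY : ∀ k, Nst (Y k)) (hbY : ∀ r, Bdd (fun k => Y k (lev S r k)))
    (D : ℕ) (hcard : ∀ k (a a' : ℕ) (ω : (S.F k).Ω), a ≤ a' →
      (((univ : Finset (S.F k).Ω).filter (fun ω' => X k a ω' = X k a ω)).image (X k a')).card ≤ 2 ^ (D * (a' - a)))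
    (a0 C η : ℝ) (h00 : 0 ≤ a0) (h01 : a0 < 1) (hC : 0 ≤ C) (hη : 0 < η)
    (hun : ∀ (E : ∀ k, (S.F k).Ω → Prop) (hE : 0 < ul (S.pr E)) (a b : ℝ), a0 ≤ a → a ≤ b → b ≤ 1 →
      C * (b - a) ≤ h (restL E hE (io (fun k => Y k (lev S b k))))
        (restL E hE (io (fun k => X k (lev S a k)) ⊔ io Bc))) :
    ∀ᶠ k in UF, Pw (S.F k).μ (fun ω => ∃ a b : ℕ, a0 * (lev S 1 k) ≤ a ∧ a ≤ b ∧ b ≤ lev S 1 k ∧
      srp (S.F k).μ (Y k b) (fun ω' => (X k a ω', (Quotient.mk (S.F k).Z ω', Bc k ω'))) ω <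
        C * ((b : ℝ) - a) - η * (lev S 1 k)) ≤ η := by
  by_contra hcon
  have h1 := UF_not hcon
  obtain ⟨M, hM8⟩ := exists_nat_ge (64 * (C + D + 1) / η)
  have hM0 : (0 : ℝ) < M := lt_of_lt_of_le (by positivity) hM8
  have hM1 : 1 ≤ M := by exact_mod_cast hM0
  have hD0 : (0 : ℝ) ≤ D := Nat.cast_nonneg _
  have hM2 : (3 * C + 2 * D) / (M : ℝ) ≤ η / 16 := by
    rw [div_le_iff₀ hη] at hM8
    rw [div_le_iff₀ hM0]
    nlinarith
  set ρ : ℕ → ℝ := fun i => a0 + (1 - a0) * (i / M) with hρ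
  set E : Fin (M + 1) × Fin (M + 1) → ∀ k, (S.F k).Ω → Prop := fun p k ω =>
    (p.1 : ℕ) ≤ p.2 ∧ srp (S.F k).μ (Y k (lev S (ρ p.2) k))
        (fun ω' => (X k (lev S (ρ p.1) k) ω', (Quotient.mk (S.F k).Z ω', Bc k ω'))) ω ≤
        (C * (ρ p.2 - ρ p.1) - η / 4) * (S.F k).n with hE
  set Bad : ∀ k, (S.F k).Ω → Prop := fun k ω => ∃ a b : ℕ, a0 * (lev S 1 k) ≤ a ∧ a ≤ b ∧ b ≤ lev S 1 k ∧
      srp (S.F k).μ (Y k b) (fun ω' => (X k a ω', (Quotient.mk (S.F k).Z ω', Bc k ω'))) ω <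
        C * ((b : ℝ) - a) - η * (lev S 1 k) with hBad
  set G : ∀ k, (S.F k).Ω → Prop := fun k ω => ∀ i : Fin (lev S 1 k + 1) × Fin (lev S 1 k + 1) × Fin (lev S 1 k + 1),
    (i.1 : ℕ) ≤ i.2.1 → srp (S.F k).μ (X k i.2.1) (fun ω' => (Y k i.2.2 ω', (X k i.1 ω',
      (Quotient.mk (S.F k).Z ω', Bc k ω')))) ω ≤ D * (((i.2.1 : ℕ) : ℝ) - (i.1 : ℕ)) + η / 16 * (S.F k).n with hG
  obtain ⟨n1, hn1⟩ := poly_exp (show 0 < η / 16 by positivity) (half_pos hη)
  have hGp : ∀ᶠ k in UF, Pw (S.F k).μ (fun ω => ¬ G k ω) ≤ η / 2 := by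
    filter_upwards [S.lim.eventually_ge_atTop n1] with k hk
    have hn := (S.F k).pos
    have hNle : (lev S 1 k : ℝ) ≤ (S.F k).n := by
      have := lev_le S zero_le_one k
      rwa [one_mul] at this
    have e1 : Pw (S.F k).μ (fun ω => ¬ G k ω) ≤ Pw (S.F k).μ (fun ω =>
        ∃ i : Fin (lev S 1 k + 1) × Fin (lev S 1 k + 1) × Fin (lev S 1 k + 1), (i.1 : ℕ) ≤ i.2.1 ∧
          D * (((i.2.1 : ℕ) : ℝ) - (i.1 : ℕ)) + η / 16 * (S.F k).n < srp (S.F k).μ (X k i.2.1)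
            (fun ω' => (Y k i.2.2 ω', (X k i.1 ω', (Quotient.mk (S.F k).Z ω', Bc k ω')))) ω) := by
      apply Pw_mono _ (S.F k).nn
      intro ω _ hω
      rw [hG] at hω
      push Not at hω
      exact hω
    refine e1.trans ((Pw_ex _ (S.F k).nn _).trans ?_)
    refine (Finset.sum_le_sum (g := fun _ => (2 : ℝ) ^ (-(η / 16 * (S.F k).n))) fun i _ => ?_).trans ?_
    · by_cases hi : (i.1 : ℕ) ≤ i.2.1
      · have e2 := srp_card (S.F k).μ (S.F k).nn (X k i.2.1)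
          (fun ω' => (Y k i.2.2 ω', (X k i.1 ω', (Quotient.mk (S.F k).Z ω', Bc k ω'))))
          (K := (2 : ℝ) ^ (D * ((i.2.1 : ℕ) - (i.1 : ℕ)))) (by positivity) (by
            intro ω _
            have e3 := hcard k i.1 i.2.1 ω hi
            have e4 : ((((univ : Finset (S.F k).Ω).filter (fun ω' =>
                (Y k i.2.2 ω', (X k i.1 ω', (Quotient.mk (S.F k).Z ω', Bc k ω'))) =
                (Y k i.2.2 ω, (X k i.1 ω, (Quotient.mk (S.F k).Z ω, Bc k ω))))).image (X k i.2.1))).card ≤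
                2 ^ (D * ((i.2.1 : ℕ) - (i.1 : ℕ))) := by
              refine le_trans (Finset.card_le_card (Finset.image_subset_image ?_)) e3
              intro ω' hω'
              rw [Finset.mem_filter] at hω' ⊢
              refine ⟨hω'.1, ?_⟩
              have := hω'.2
              simp only [Prod.mk.injEq] at this
              exact this.2.1
            have e5 : ((((univ : Finset (S.F k).Ω).filter (fun ω' =>
                (Y k i.2.2 ω', (X k i.1 ω', (Quotient.mk (S.F k).Z ω', Bc k ω'))) =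
                (Y k i.2.2 ω, (X k i.1 ω, (Quotient.mk (S.F k).Z ω, Bc k ω))))).image (X k i.2.1)).card : ℝ) ≤
                (2 : ℝ) ^ (D * ((i.2.1 : ℕ) - (i.1 : ℕ))) := by exact_mod_cast e4
            convert e5) (η / 16 * (S.F k).n)
        rw [(S.F k).ms, mul_one] at e2
        refine le_trans (Pw_mono _ (S.F k).nn ?_) e2
        intro ω _ hω
        refine lt_of_le_of_lt (le_of_eq ?_) hω.2
        rw [← Real.rpow_natCast, Real.logb_rpow (by norm_num) (by norm_num), Nat.cast_mul, Nat.cast_sub hi]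
      · have e3 : Pw (S.F k).μ (fun ω => (i.1 : ℕ) ≤ i.2.1 ∧
          D * (((i.2.1 : ℕ) : ℝ) - (i.1 : ℕ)) + η / 16 * (S.F k).n < srp (S.F k).μ (X k i.2.1)
            (fun ω' => (Y k i.2.2 ω', (X k i.1 ω', (Quotient.mk (S.F k).Z ω', Bc k ω')))) ω) = 0 := by
          unfold Pw
          apply Finset.sum_eq_zero
          intro ω _
          rw [if_neg]
          exact fun hh => hi hh.1
        rw [e3]
        positivity
    · rw [Finset.sum_const, nsmul_eq_mul, Finset.card_univ, Fintype.card_prod, Fintype.card_prod, Fintype.card_fin]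
      refine le_trans ?_ (hn1 _ hk)
      apply mul_le_mul_of_nonneg_right _ (by positivity)
      push_cast
      have e5 : (lev S 1 k : ℝ) + 1 ≤ (S.F k).n + 1 := by linarith
      have e6 : (0 : ℝ) ≤ (lev S 1 k : ℝ) + 1 := by positivity
      calc ((lev S 1 k : ℝ) + 1) * (((lev S 1 k : ℝ) + 1) * ((lev S 1 k : ℝ) + 1)) = ((lev S 1 k : ℝ) + 1) ^ 3 := by ring
        _ ≤ ((S.F k).n + 1) ^ 3 := pow_le_pow_left₀ e6 e5 3
  have h2 : ∀ᶠ k in UF, η / 2 < Pw (S.F k).μ (fun ω => Bad k ω ∧ G k ω) := by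
    filter_upwards [h1, hGp] with k k1 k2
    rw [not_le] at k1
    have e1 : Pw (S.F k).μ (Bad k) ≤ Pw (S.F k).μ (fun ω => (Bad k ω ∧ G k ω) ∨ ¬ G k ω) := by
      apply Pw_mono _ (S.F k).nn
      intro ω _ hω
      by_cases hg : G k ω
      · exact Or.inl ⟨hω, hg⟩
      · exact Or.inr hg
    have e2 := Pw_or (S.F k).μ (S.F k).nn (fun ω => Bad k ω ∧ G k ω) (fun ω => ¬ G k ω)
    linarith
  obtain ⟨p, hp⟩ := pos_of_cover E _ (half_pos hη) h2 (by
    filter_upwards [S.lim.eventually_ge_atTop (max 2 (64 * (C + D + 1) / η))] with k hn2' ω hω hbad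
    have hn := (S.F k).pos
    have hn2 : 2 ≤ (S.F k).n := (le_max_left _ _).trans hn2'
    have hn3 : 64 * (C + D + 1) / η ≤ (S.F k).n := (le_max_right _ _).trans hn2'
    rw [div_le_iff₀ hη] at hn3
    have hNle : (lev S 1 k : ℝ) ≤ (S.F k).n := by
      have := lev_le S zero_le_one k
      rwa [one_mul] at this
    have hNlt : (S.F k).n < lev S 1 k + 1 := by
      have := lt_lev S 1 k
      rwa [one_mul] at this
    obtain ⟨⟨a, b, ha, hab, hb', hs⟩, hg⟩ := hbad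
    have hsn : 0 ≤ srp (S.F k).μ (Y k b) (fun ω' => (X k a ω', (Quotient.mk (S.F k).Z ω', Bc k ω'))) ω := by
      unfold srp
      have p2 := e1_pr_pos (S.F k).μ (fun ω' => (Y k b ω', (X k a ω', (Quotient.mk (S.F k).Z ω', Bc k ω')))) (S.F k).nn ω hω
      have q2 := e1_pr_mono (S.F k).μ (fun ω' => (Y k b ω', (X k a ω', (Quotient.mk (S.F k).Z ω', Bc k ω'))))
        (fun ω' => (X k a ω', (Quotient.mk (S.F k).Z ω', Bc k ω'))) (S.F k).nn ω (by
          intro ω' _ h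
          rw [Prod.mk.injEq] at h
          exact h.2)
      have := Real.logb_le_logb_of_le (by norm_num : (1 : ℝ) < 2) p2 q2
      linarith
    have hηN : η * ((S.F k).n / 2) ≤ η * (lev S 1 k) := mul_le_mul_of_nonneg_left (by linarith) hη.le
    have hMn : (3 * C + 2 * D) / (M : ℝ) * (S.F k).n ≤ η / 16 * (S.F k).n := mul_le_mul_of_nonneg_right hM2 hn.le
    have hMn' : (3 * C + 2 * D) / (M : ℝ) * (S.F k).n = C * (3 / M * (S.F k).n) + D * (2 / M * (S.F k).n) := by ring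
    have hpD : 0 ≤ D * (2 / M * (S.F k).n) := by positivity
    rcases grid_in hn h00 h01 hM1 hNle hNlt ha hab hb' with hc | ⟨i, j, hij, hj, hi1, hj1, hi2, hd⟩
    · exfalso
      have e1 := mul_le_mul_of_nonneg_left hc hC
      nlinarith
    · refine ⟨(⟨i, by omega⟩, ⟨j, by omega⟩), hij, ?_⟩
      show srp (S.F k).μ (Y k (lev S (ρ j) k))
        (fun ω' => (X k (lev S (ρ i) k) ω', (Quotient.mk (S.F k).Z ω', Bc k ω'))) ω ≤
        (C * (ρ j - ρ i) - η / 4) * (S.F k).n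
      have hlj : lev S (ρ j) k ≤ b := hj1
      have hli : a ≤ lev S (ρ i) k := hi1
      have hρi1 : ρ i ≤ 1 := by
        have e0 : (i : ℝ) ≤ M := by exact_mod_cast (hij.trans hj)
        have e1 := (div_le_one hM0).mpr e0
        have hd : 0 < 1 - a0 := by linarith
        have e2 := mul_le_mul_of_nonneg_left e1 hd.le
        show a0 + (1 - a0) * ((i : ℝ) / M) ≤ 1
        linarith
      have hliN : lev S (ρ i) k ≤ lev S 1 k := Nat.floor_mono (mul_le_mul_of_nonneg_right hρi1 hn.le)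
      have g1 := srp_change (S.F k).μ (S.F k).nn (hX k) (hY k) (fun ω' => (Quotient.mk (S.F k).Z ω', Bc k ω')) hli hlj ω hω
      have g2 := hg (⟨a, by omega⟩, ⟨lev S (ρ i) k, by omega⟩, ⟨lev S (ρ j) k, by omega⟩) hli
      have g2' : srp (S.F k).μ (X k (lev S (ρ i) k)) (fun ω' => (Y k (lev S (ρ j) k) ω', (X k a ω',
        (Quotient.mk (S.F k).Z ω', Bc k ω')))) ω ≤ D * (((lev S (ρ i) k : ℕ) : ℝ) - (a : ℕ)) + η / 16 * (S.F k).n := g2
      have g3 : ((lev S (ρ i) k : ℕ) : ℝ) ≤ a + 2 / M * (S.F k).n + 2 := hi2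
      have g4 : (D : ℝ) * (((lev S (ρ i) k : ℕ) : ℝ) - (a : ℕ)) ≤ D * (2 / M * (S.F k).n + 2) :=
        mul_le_mul_of_nonneg_left (by linarith) hD0
      have g5 : C * ((b : ℝ) - a) ≤ C * (ρ j - ρ i) * (S.F k).n + C * (3 / M * (S.F k).n) + 2 * C := by
        have g6 := mul_le_mul_of_nonneg_left hd (mul_nonneg hC hn.le)
        have g7 : C * (S.F k).n * (((b : ℝ) - a) / (S.F k).n - 3 / M - 2 / (S.F k).n) =
            C * ((b : ℝ) - a) - C * (3 / M * (S.F k).n) - 2 * C := by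
          field_simp
        rw [g7] at g6
        have g8 : C * (S.F k).n * (a0 + (1 - a0) * (↑j / ↑M) - (a0 + (1 - a0) * (↑i / ↑M))) =
          C * (ρ j - ρ i) * (S.F k).n := by
          rw [hρ]
          ring
        rw [g8] at g6
        linarith
      nlinarith)
  have hij : (p.1 : ℕ) ≤ p.2 := by
    by_contra hc
    have e1 : S.pr (E p) = fun _ => 0 := by
      funext k
      unfold Sp.pr FSp.pb mass
      apply Finset.sum_eq_zero
      intro ω _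
      exact res_neg _ _ _ (fun hh => hc hh.1)
    rw [e1, ul_const] at hp
    exact lt_irrefl 0 hp
  have hpM : ((p.2 : ℕ) : ℝ) ≤ M := by
    have := p.2.2
    have h2 : (p.2 : ℕ) ≤ M := by omega
    exact_mod_cast h2
  have hd : 0 < 1 - a0 := by linarith
  have hρ1 : a0 ≤ ρ p.1 := by
    have : 0 ≤ (1 - a0) * (((p.1 : ℕ) : ℝ) / M) := by positivity
    show a0 ≤ a0 + (1 - a0) * (((p.1 : ℕ) : ℝ) / M)
    linarith
  have hρ2 : ρ p.1 ≤ ρ p.2 := by
    have e1 : ((p.1 : ℕ) : ℝ) ≤ (p.2 : ℕ) := by exact_mod_cast hij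
    have e2 := mul_le_mul_of_nonneg_left (div_le_div_of_nonneg_right e1 hM0.le) hd.le
    show a0 + (1 - a0) * (((p.1 : ℕ) : ℝ) / M) ≤ a0 + (1 - a0) * (((p.2 : ℕ) : ℝ) / M)
    linarith
  have hρ3 : ρ p.2 ≤ 1 := by
    have e1 := (div_le_one hM0).mpr hpM
    have e2 := mul_le_mul_of_nonneg_left e1 hd.le
    show a0 + (1 - a0) * (((p.2 : ℕ) : ℝ) / M) ≤ 1
    linarith
  have h2 := hun (E p) hp (ρ p.1) (ρ p.2) hρ1 hρ2 hρ3
  have h3 := h_event_le (hbY (ρ p.2)) (hb (ρ p.1)) hB (E p) hp (C * (ρ p.2 - ρ p.1) - η / 4)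
    (fun k ω _ hω => hω.2)
  linarith

end

end Pool.Agent.Helper61.EC
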