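import Pool.Agent.Helper61.VW.GenL
import Pool.Agent.Helper61.RN.Pi

/-! Vectors: cells of integer levels, rates. -/

namespace Pool.Agent.Helper61.EC

open Finset Filter Topology Pool.Agent.Helper69.RK Pool.Agent.Helper31.EC Pool.Agent.Helper92.W Pool.Agent.Helper46.WF

noncomputable section

open Sp

/-- cell of level `l` of a vector -/
def vfl {b : ℕ} (l : ℕ) (x : Fin b → ℝ) : Fin b → ℤ := fun i => fl l (x i)

theorem nst_vfl {Ω : Type} {b : ℕ} (z : Ω → Fin b → ℝ) : Nst (fun l ω => vfl l (z ω)) := by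
  intro l m h ω ω' hh
  funext i
  exact fl_eq_of h (congrFun hh i)

theorem fl_mem_Ico {l m : ℕ} (h : l ≤ m) {x : ℝ} {c : ℤ} (hx : fl l x = c) :
    fl m x ∈ Finset.Ico (c * 2 ^ (m - l)) ((c + 1) * 2 ^ (m - l)) := by
  have e2 : (2 : ℝ) ^ m = 2 ^ l * 2 ^ (m - l) := by rw [← pow_add]; congr 1; omega
  have h0 : (0 : ℝ) < 2 ^ (m - l) := by positivity
  have h1 : (c : ℝ) ≤ 2 ^ l * x := by
    rw [← hx]; exact Int.floor_le _
  have h2 : (2 : ℝ) ^ l * x < c + 1 := by
    rw [← hx]; exact Int.lt_floor_add_one _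
  rw [Finset.mem_Ico]
  constructor
  · unfold fl
    apply Int.le_floor.mpr
    push_cast
    rw [e2]
    calc (c : ℝ) * 2 ^ (m - l) ≤ (2 ^ l * x) * 2 ^ (m - l) := mul_le_mul_of_nonneg_right h1 h0.le
      _ = _ := by ring
  · unfold fl
    apply Int.floor_lt.mpr
    push_cast
    rw [e2]
    calc 2 ^ l * 2 ^ (m - l) * x = (2 ^ l * x) * 2 ^ (m - l) := by ring
      _ < ((c : ℝ) + 1) * 2 ^ (m - l) := mul_lt_mul_of_pos_right h2 h0

open Classical in
theorem card_vfl {Ω : Type} [Fintype Ω] {b : ℕ} (z : Ω → Fin b → ℝ) (a a' : ℕ) (ω : Ω) (h : a ≤ a') :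
    (((univ : Finset Ω).filter (fun ω' => vfl a (z ω') = vfl a (z ω))).image (fun ω' => vfl a' (z ω'))).card ≤
      2 ^ (b * (a' - a)) := by
  have h1 : (((univ : Finset Ω).filter (fun ω' => vfl a (z ω') = vfl a (z ω))).image (fun ω' => vfl a' (z ω'))) ⊆
      Fintype.piFinset (fun i : Fin b => Finset.Ico (vfl a (z ω) i * 2 ^ (a' - a)) ((vfl a (z ω) i + 1) * 2 ^ (a' - a))) := by
    intro y hy
    rw [Finset.mem_image] at hy
    obtain ⟨ω', hω', rfl⟩ := hy
    rw [Finset.mem_filter] at hω'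
    rw [Fintype.mem_piFinset]
    intro i
    exact fl_mem_Ico h (congrFun hω'.2 i)
  refine (Finset.card_le_card h1).trans ?_
  rw [Fintype.card_piFinset]
  have h2 : ∀ i : Fin b, (Finset.Ico (vfl a (z ω) i * 2 ^ (a' - a)) ((vfl a (z ω) i + 1) * 2 ^ (a' - a))).card =
      2 ^ (a' - a) := by
    intro i
    rw [Int.card_Ico]
    have : (vfl a (z ω) i + 1) * 2 ^ (a' - a) - vfl a (z ω) i * 2 ^ (a' - a) = ((2 ^ (a' - a) : ℕ) : ℤ) := by
      push_cast; ring
    rw [this, Int.toNat_natCast]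
  rw [Finset.prod_congr rfl fun i _ => h2 i, Finset.prod_const, Finset.card_univ, Fintype.card_fin, ← pow_mul,
    mul_comm]

/-- finite families of random variables -/
theorem pi_io' (S : Sp) {κ : ℕ → Type} : ∀ (J : ℕ) (X : Fin J → ∀ k, (S.F k).Ω → κ k), (∀ i, Bdd (X i)) →
    Bdd (fun k ω (i : Fin J) => X i k ω) ∧
      io (fun k ω (i : Fin J) => X i k ω) = (univ : Finset (Fin J)).sup fun i => io (X i) := by
  intro J
  induction J with
  | zero =>
    intro X _
    have hb : Bdd (fun k (ω : (S.F k).Ω) (i : Fin 0) => X i k ω) := by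
      apply Bdd_of_card _ (fun _ => {fun i => i.elim0}) 0
      · exact Eventually.of_forall fun k ω _ => Finset.mem_singleton.mpr (Subsingleton.elim _ _)
      · exact Eventually.of_forall fun k => by simp
    refine ⟨hb, le_antisymm ?_ ?_⟩
    · have h1 : io (fun k (ω : (S.F k).Ω) (i : Fin 0) => X i k ω) ≤ (⊥ : S.L) := by
        rw [io_eq hb, ← cl_bot, cl_le]
        refine squeeze_zero' (Eventually.of_forall fun k => rt_nonneg _ _ k)
          (Eventually.of_forall fun k => ?_) tendsto_const_nhds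
        apply le_of_eq
        unfold rt
        rw [(S.F k).e_zero, zero_div]
        intro ω ω' _ _ _
        exact Subsingleton.elim _ _
      exact h1.trans bot_le
    · simp
  | succ J ih =>
    intro X hX
    obtain ⟨b1, e1⟩ := ih (fun i => X i.succ) fun i => hX i.succ
    have bp := (hX 0).pair b1
    have ep := io_pair (hX 0) b1
    have fw : ∀ k (ω ω' : (S.F k).Ω), (X 0 k ω, fun i : Fin J => X i.succ k ω) =
        (X 0 k ω', fun i : Fin J => X i.succ k ω') → (fun i : Fin (J + 1) => X i k ω) = fun i => X i k ω' := by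
      intro k ω ω' hh
      rw [Prod.mk.injEq] at hh
      funext i
      refine Fin.cases hh.1 (fun j => congrFun hh.2 j) i
    have bb : Bdd (fun k ω (i : Fin (J + 1)) => X i k ω) :=
      bp.of_fun (Eventually.of_forall fun k ω ω' _ _ _ hh => fw k ω ω' hh)
    refine ⟨bb, le_antisymm ?_ ?_⟩
    · refine (io_le_of_fun bp (Eventually.of_forall fun k ω ω' _ _ _ hh => fw k ω ω' hh)).trans ?_
      rw [ep, e1]
      refine sup_le (Finset.le_sup (f := fun i => io (X i)) (Finset.mem_univ (0 : Fin (J + 1)))) ?_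
      apply Finset.sup_le
      intro i _
      exact Finset.le_sup (f := fun i => io (X i)) (Finset.mem_univ i.succ)
    · apply Finset.sup_le
      intro i _
      exact io_le_of_fun bb (Eventually.of_forall fun k ω ω' _ _ _ hh => congrFun hh i)

/-- cells and digits of vectors -/
theorem io_vfl {S : Sp} {b : ℕ} (z : Fin b → TR S) (C : ℝ) (hC : ∀ i k ω, |TR.ev (z i) k ω| ≤ C) {r : ℝ} (h0 : 0 ≤ r)
    (h1 : r ≤ 1) :
    Bdd (fun k ω => vfl (lev S r k) (fun i => TR.ev (z i) k ω)) ∧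
      io (fun k ω => vfl (lev S r k) (fun i => TR.ev (z i) k ω)) = QS.vd (fun i => QS.mk (z i)) r := by
  have h := pi_io' S b (fun i k ω => fl (lev S r k) (TR.ev (z i) k ω)) fun i => bdd_fl S (TR.ev (z i)) C (hC i) r
  refine ⟨h.1, h.2.trans ?_⟩
  unfold QS.vd
  congr 1
  funext i
  exact io_fl S (z i) C (hC i) h0 h1

theorem bdd_vfl {S : Sp} {b : ℕ} (z : Fin b → TR S) (C : ℝ) (hC : ∀ i k ω, |TR.ev (z i) k ω| ≤ C) (r : ℝ) :
    Bdd (fun k ω => vfl (lev S r k) (fun i => TR.ev (z i) k ω)) :=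
  (pi_io' S b (fun i k ω => fl (lev S r k) (TR.ev (z i) k ω)) fun i => bdd_fl S (TR.ev (z i)) C (hC i) r).1

end

end Pool.Agent.Helper61.EC
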